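import Pool.Agent.Helper5.PQ.Stm

/-! Package UC (project PQ of helper5): unfinished runs. -/

set_option autoImplicit false

namespace Pool.Agent.Helper92.PQ

open Finset Classical Pool.Agent.Helper5.RD Pool.Agent.Helper5.PQ

theorem lst_inter (ps : List ℕ) (T : Finset ℕ) : lst ps (T ∩ ps.toFinset) = lst ps T := by
  unfold lst
  refine List.map_congr_left fun p hp => ?_
  have h : p ∈ T ∩ ps.toFinset ↔ p ∈ T := by
    rw [Finset.mem_inter, List.mem_toFinset]
    tauto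
  by_cases h1 : p ∈ T
  · rw [if_pos (h.2 h1), if_pos h1]
  · rw [if_neg (fun h2 => h1 (h.1 h2)), if_neg h1]

theorem lst_inj {ps : List ℕ} {T T' : Finset ℕ} (h : lst ps T = lst ps T') :
    T ∩ ps.toFinset = T' ∩ ps.toFinset := by
  unfold lst at h
  rw [List.map_inj_left] at h
  ext p
  rw [Finset.mem_inter, Finset.mem_inter, List.mem_toFinset]
  constructor
  · rintro ⟨h1, h2⟩
    refine ⟨?_, h2⟩
    have h3 := h p h2
    rw [if_pos h1] at h3
    by_contra h4
    rw [if_neg h4] at h3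
    exact one_ne_zero h3
  · rintro ⟨h1, h2⟩
    refine ⟨?_, h2⟩
    have h3 := h p h2
    rw [if_pos h1] at h3
    by_contra h4
    rw [if_neg h4] at h3
    exact zero_ne_one h3

theorem uc (hB : S_B2) (hS : S_SPH) : S_UC := by
  intro P γ hγ hK0 hK01 R ps hsub hnd hpr A1 h hdeg X B hX b hb
  obtain ⟨M, hM⟩ : ∃ M : ℝ, M = (1 + (P.K0 : ℝ) ^ (-γ)) ^ ps.length *
    ((X.card : ℝ) * B.card) ^ γ := ⟨_, rfl⟩
  obtain ⟨φ, hφ⟩ : ∃ φ : ℕ × Finset ℕ → ℕ × Finset ℕ, φ = fun z => (z.1, z.2 \ ps.toFinset) :=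
    ⟨_, rfl⟩
  obtain ⟨unf, hunf⟩ : ∃ unf : ℕ × Finset ℕ → Prop, unf = fun z =>
    ¬ Fin1 P (run P (ps.zip (lst ps z.2)) (X, B) ((xp R z : ℕ) : ℤ) b) := ⟨_, rfl⟩
  obtain ⟨fib, hfib⟩ : ∃ fib : ℕ × Finset ℕ → Finset (ℕ × Finset ℕ),
    fib = fun w => A1.filter (fun z => φ z = w) := ⟨_, rfl⟩
  have hmem : ∀ w z, z ∈ fib w ↔ z ∈ A1 ∧ φ z = w := by
    intro w z
    rw [hfib]
    exact Finset.mem_filter
  have hφ1 : ∀ z, (φ z).1 = z.1 := by intro z; rw [hφ]
  have hφ2 : ∀ z, (φ z).2 = z.2 \ ps.toFinset := by intro z; rw [hφ]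
  have key : ∀ w, (2 : ℝ) ^ h * (((fib w).filter unf).card : ℝ) ≤ ((fib w).card : ℝ) * M := by
    intro w
    rcases (fib w).eq_empty_or_nonempty with he | ⟨z0, hz0⟩
    · rw [he]
      simp
    have hz0' := (hmem w z0).1 hz0
    have hfst : ∀ z ∈ fib w, z.1 = z0.1 := by
      intro z hz
      rw [← hφ1 z, ((hmem w z).1 hz).2, ← hz0'.2, hφ1]
    have hsnd : ∀ z ∈ fib w, z.2 \ ps.toFinset = z0.2 \ ps.toFinset := by
      intro z hz
      rw [← hφ2 z, ((hmem w z).1 hz).2, ← hz0'.2, hφ2]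
    have hx : ∀ z ∈ fib w, xp R z = xp R z0 := by
      intro z hz
      have h1 : ∀ y : ℕ × Finset ℕ, y.2 \ R = (y.2 \ ps.toFinset) \ R := by
        intro y
        ext a
        rw [Finset.mem_sdiff, Finset.mem_sdiff, Finset.mem_sdiff]
        constructor
        · rintro ⟨h2, h3⟩
          exact ⟨⟨h2, fun h4 => h3 (hsub h4)⟩, h3⟩
        · rintro ⟨⟨h2, -⟩, h3⟩
          exact ⟨h2, h3⟩
      unfold xp
      rw [hfst z hz, h1 z, h1 z0, hsnd z hz]
    have hinj : Set.InjOn (fun z : ℕ × Finset ℕ => z.2 ∩ ps.toFinset) (fib w) := by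
      intro z hz z' hz' he
      have hz := Finset.mem_coe.1 hz
      have hz' := Finset.mem_coe.1 hz'
      refine Prod.ext ((hfst z hz).trans (hfst z' hz').symm) ?_
      rw [← Finset.sdiff_union_inter z.2 ps.toFinset, ← Finset.sdiff_union_inter z'.2 ps.toFinset,
        hsnd z hz, hsnd z' hz']
      have he' : z.2 ∩ ps.toFinset = z'.2 ∩ ps.toFinset := he
      rw [he']
    obtain ⟨𝓕, h𝓕⟩ : ∃ 𝓕 : Finset (Finset ℕ), 𝓕 = (fib w).image (fun z => z.2 ∩ ps.toFinset) :=
      ⟨_, rfl⟩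
    have hcard : 𝓕.card = (fib w).card := by rw [h𝓕]; exact Finset.card_image_of_injOn hinj
    have hdegF : ∀ T ∈ 𝓕, h ≤ Deg ps.toFinset 𝓕 T := by
      intro T hT
      rw [h𝓕] at hT
      obtain ⟨z, hz, rfl⟩ := Finset.mem_image.1 hT
      refine (hdeg z ((hmem w z).1 hz).1).trans (Finset.card_le_card ?_)
      intro q hq
      obtain ⟨hq1, hq2⟩ := Finset.mem_filter.1 hq
      refine Finset.mem_filter.2 ⟨hq1, ?_⟩
      rw [h𝓕]
      refine Finset.mem_image.2 ⟨(z.1, symmDiff z.2 {q}), (hmem w _).2 ⟨hq2, ?_⟩, ?_⟩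
      · rw [← ((hmem w z).1 hz).2, hφ]
        refine Prod.ext rfl ?_
        simp only
        ext a
        rw [Finset.mem_sdiff, Finset.mem_sdiff, Finset.mem_symmDiff, Finset.mem_singleton]
        constructor
        · rintro ⟨h1 | h1, h2⟩
          · exact ⟨h1.1, h2⟩
          · exact absurd (h1.1 ▸ hq1) h2
        · rintro ⟨h1, h2⟩
          refine ⟨Or.inl ⟨h1, ?_⟩, h2⟩
          rintro rfl
          exact h2 hq1
      · simp only
        ext a
        rw [Finset.mem_inter, Finset.mem_symmDiff, Finset.mem_symmDiff, Finset.mem_singleton,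
          Finset.mem_inter]
        constructor
        · rintro ⟨h1 | h1, h2⟩
          · exact Or.inl ⟨⟨h1.1, h2⟩, h1.2⟩
          · exact Or.inr ⟨h1.1, fun h3 => h1.2 h3.1⟩
        · rintro (⟨⟨h1, h2⟩, h3⟩ | ⟨h1, h2⟩)
          · exact ⟨Or.inl ⟨h1, h3⟩, h2⟩
          · rw [h1] at h2 ⊢
            exact ⟨Or.inr ⟨rfl, fun h3 => h2 ⟨h3, hq1⟩⟩, hq1⟩
    have h𝓕ne : 𝓕.Nonempty := by
      rw [h𝓕]
      exact ⟨_, Finset.mem_image_of_mem _ hz0⟩
    have h2h : 2 ^ h ≤ (fib w).card := by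
      rw [← hcard]
      exact (hS ps.toFinset 𝓕 h hdegF).2 h𝓕ne
    have h2 := hB P γ hγ hK0 hK01 ps hpr ((xp R z0 : ℕ) : ℤ) b (X, B) (hX z0 hz0'.1) hb
      (𝓕.image (lst ps)) (by
        intro l hl
        obtain ⟨T, -, rfl⟩ := Finset.mem_image.1 hl
        unfold lst
        refine ⟨List.length_map _, ?_⟩
        intro e he
        obtain ⟨p, -, rfl⟩ := List.mem_map.1 he
        split_ifs <;> norm_num)
    have h3 : ((fib w).filter unf).card ≤ ((𝓕.image (lst ps)).filter (fun l =>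
        ¬ Fin1 P (run P (ps.zip l) (X, B) ((xp R z0 : ℕ) : ℤ) b))).card := by
      refine Finset.card_le_card_of_injOn (fun z => lst ps z.2) ?_ ?_
      · intro z hz
        obtain ⟨hz1, hz2⟩ := Finset.mem_filter.1 (Finset.mem_coe.1 hz)
        refine Finset.mem_coe.2 (Finset.mem_filter.2 ⟨?_, ?_⟩)
        · simp only
          rw [← lst_inter, h𝓕]
          exact Finset.mem_image_of_mem _ (Finset.mem_image_of_mem _ hz1)
        · rw [hunf, hx z hz1] at hz2
          exact hz2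
      · intro z hz z' hz' he
        refine hinj (Finset.mem_coe.2 (Finset.mem_filter.1 (Finset.mem_coe.1 hz)).1)
          (Finset.mem_coe.2 (Finset.mem_filter.1 (Finset.mem_coe.1 hz')).1) ?_
        exact lst_inj he
    have h4 : (((fib w).filter unf).card : ℝ) ≤ M := by
      rw [hM]
      refine le_trans ?_ h2
      exact_mod_cast h3
    have h5 : (2 : ℝ) ^ h ≤ ((fib w).card : ℝ) := by exact_mod_cast h2h
    exact mul_le_mul h5 h4 (Nat.cast_nonneg _) (Nat.cast_nonneg _)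
  -- the sum over the fibres
  have hsum1 : (A1.filter unf).card = ∑ w ∈ A1.image φ, ((fib w).filter unf).card := by
    rw [Finset.card_eq_sum_card_fiberwise (f := φ) (t := A1.image φ) (fun d hd =>
        Finset.mem_image_of_mem _ (Finset.mem_filter.1 hd).1)]
    refine Finset.sum_congr rfl fun z _ => ?_
    congr 1
    rw [hfib]
    ext d
    simp only [Finset.mem_filter]
    tauto
  have hsum2 : A1.card = ∑ w ∈ A1.image φ, (fib w).card := by
    rw [Finset.card_eq_sum_card_fiberwise (f := φ) (t := A1.image φ) (fun d hd =>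
        Finset.mem_image_of_mem _ hd)]
    rw [hfib]
  have hfinal : (2 : ℝ) ^ h * ((A1.filter unf).card : ℝ) ≤ A1.card * M := by
    rw [hsum1, hsum2]
    push_cast
    rw [Finset.mul_sum, Finset.sum_mul]
    exact Finset.sum_le_sum fun w _ => key w
  rw [hM, hunf] at hfinal
  refine le_trans (le_of_eq (congrArg (fun n : ℕ => (2 : ℝ) ^ h * (n : ℝ))
    (congrArg Finset.card ?_))) hfinal
  ext z
  simp only [Finset.mem_filter]

end Pool.Agent.Helper92.PQ
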